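import Pool.Agent.W939.AA.Infl
set_option autoImplicit false

/-!
# The strong inequality for nonadaptive quantum algorithms

For the acceptance probability `p` of a quantum algorithm which makes `T` queries in parallel,
`Var p ≤ 4 T √(𝔼 p) max_j ‖D_j p‖₂`.
-/

namespace Pool.Agent.Results.MP_f992e4_an.NonadaptiveQuantum

open Pool.Agent.W939.AA

theorem result (N T m : ℕ)
    (U : ℕ → Matrix.unitaryGroup (Basis N T m) ℂ) (s₀ : Basis N T m)
    (Acc : Finset (Basis N T m)) (p : (Fin N → Bool) → ℝ)
    (hp : ∀ x, p x = acceptProb U s₀ Acc 1 x) (M : ℝ) (hM0 : 0 ≤ M)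
    (hM : ∀ j : Fin N, Real.sqrt (avg (fun x =>
      ((p (Function.update x j true) - p (Function.update x j false)) / 2) ^ 2)) ≤ M) :
    var p ≤ 4 * T * Real.sqrt (avg p) * M := by
  have e : p = acceptProb U s₀ Acc 1 := funext hp
  have hM' : ∀ j, infl p j ≤ M ^ 2 := by
    intro j
    have h1 : avg (fun x => ((p (Function.update x j true) - p (Function.update x j false)) / 2) ^ 2)
        = infl p j := by
      unfold infl
      congr 1
      funext x
      unfold Pool.Agent.W939.AA.flip
      cases hx : x j
      · have h2 : Function.update x j false = x := by rw [← hx]; exact Function.update_eq_self j x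
        rw [h2]
        simp only [Bool.not_false]
        ring
      · have h2 : Function.update x j true = x := by rw [← hx]; exact Function.update_eq_self j x
        rw [h2]
        simp only [Bool.not_true]
    have h2 := hM j
    rw [h1, Real.sqrt_le_left hM0] at h2
    exact h2
  subst e
  exact one_round U s₀ Acc M hM' hM0

end Pool.Agent.Results.MP_f992e4_an.NonadaptiveQuantum
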