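import Pool.Agent.W769.SM.Final

/-!
# Smoothed analysis of the strengthened Aaronson-Ambainis inequality

Let `c S` and `b S`, `S ⊆ {1, …, n}`, be real numbers, and perturb the function with Fourier
coefficients `c S` (arbitrary, of any degree) by independent uniform signs:
`f e (x) = ∑ S, (c S + e_S b S) x^S`.  Let `A, δ > 0` be such that `|c S| + |b S| ≤ A |b S|` and
`δ |b S| ≤ ||c S| - |b S||` for every nonempty `S`, and let `K ≥ 1`.  Then for all sign patterns `e`
except for at most the fraction `exp (-(K δ) ^ 2)` of them,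

`Var (f e) ≤ 12 K A² / δ * ‖f e‖_∞ * max_j ‖D_j (f e)‖₂`.

The bound does not depend on `n` or on the degree.  For `c = 0`, `b = a` (so `A = δ = 1`) these are
random signs in front of arbitrary coefficients `a S`; for `c = a`, `b = η a` with `0 < η < 1` (so
`A = (1 + η) / η`, `δ = (1 - η) / η`) it is a random relative perturbation of size `η` of an
arbitrary fixed function.
-/

set_option autoImplicit false

namespace Pool.Agent.Results.MP_f992e4_an.SmoothedAnalysis

open Pool.Agent.H722R2.AA Pool.Agent.H746R2.AA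

theorem result (n : ℕ) (c b : Finset (Fin n) → ℝ) (A δ K : ℝ) (hA : 0 < A) (hδ : 0 < δ)
    (hK : 1 ≤ K)
    (hcA : ∀ S, S ≠ ∅ → |c S| + |b S| ≤ A * |b S|)
    (hcδ : ∀ S, S ≠ ∅ → δ * |b S| ≤ |(|c S| - |b S|)|)
    (f : (Finset (Fin n) → ℤˣ) → (Fin n → ℤˣ) → ℝ)
    (hf : ∀ e x, f e x = ∑ S : Finset (Fin n),
      (c S + ((e S : ℤ) : ℝ) * b S) * ∏ i ∈ S, ((x i : ℤ) : ℝ)) :
    ((Finset.univ.filter (fun e : Finset (Fin n) → ℤˣ =>
        12 * K * A ^ 2 / δ * (⨆ x : Fin n → ℤˣ, |f e x|)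
            * (⨆ j : Fin n, Real.sqrt
                ((∑ x : Fin n → ℤˣ,
                  ((f e (Function.update x j 1) - f e (Function.update x j (-1))) / 2) ^ 2)
                  / (2 : ℝ) ^ n))
          < (∑ x : Fin n → ℤˣ, f e x ^ 2) / (2 : ℝ) ^ n
            - ((∑ x : Fin n → ℤˣ, f e x) / (2 : ℝ) ^ n) ^ 2)).card : ℝ)
      ≤ Real.exp (-(K * δ) ^ 2) * 2 ^ (2 ^ n) := by
  have h := Pool.Agent.W769.SM.main c b A δ K hA hδ hK hcA hcδ f hf
  have hvar : ∀ e, (∑ x : Fin n → ℤˣ, f e x ^ 2) / (2 : ℝ) ^ n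
        - ((∑ x : Fin n → ℤˣ, f e x) / (2 : ℝ) ^ n) ^ 2 = Cov (f e) (f e) := by
    intro e
    unfold Cov Ex
    simp_rw [← sq]
    rw [Fintype.card_fin]
  have hinf : ∀ e j, (∑ x : Fin n → ℤˣ,
      ((f e (Function.update x j 1) - f e (Function.update x j (-1))) / 2) ^ 2) / (2 : ℝ) ^ n
        = Inf (f e) j := by
    intro e j
    unfold Inf Ex D
    rw [Fintype.card_fin]
  have hcard : Fintype.card (Finset (Fin n)) = 2 ^ n := by
    rw [Fintype.card_finset, Fintype.card_fin]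
  rw [hcard] at h
  simp only [hvar, hinf]
  exact h

end Pool.Agent.Results.MP_f992e4_an.SmoothedAnalysis
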